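import Pool.Agent.Run7.h885.TS.All

/-!
# The time scaling must be at least linear, up to the maximal degree

If random walks on random quadrangulations with `N k` faces (of arbitrary laws, for example
uniform), rescaled in space by `a k → 0` and run at speed `t k`, converge in law in the
Gromov-Hausdorff-Prokhorov-uniform topology to Liouville Brownian motion on a Liouville quantum
gravity sphere, or to any time-changed Brownian motion on any random sphere, and if all degrees
are at most `D k` with probability larger than `199/200`, then `c * N k ≤ D k * t k` eventually,
for a constant `c > 0`. Together with `TimeScaleLinear` (`t k ≤ C * N k`) this determines the time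
scaling up to the maximal degree, which is of order `log N` for uniform quadrangulations.

Idea of the proof. A planar graph has no `K_{3,3}`, so a random path between two random vertices
and an independent one meet with probability bounded from below; by duality there is a metric of
small energy for which two typical points are not close. A walk of length `c * N / D` does not
move much with respect to this metric, so two independent walks of this length are disjoint with
probability at least `1/50`. But planar Brownian motion is recurrent: it crosses all rectangles,
so a walk which is close to it meets all macroscopic paths in a bounded time, with probability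
close to one.
-/

set_option autoImplicit false

open scoped NNReal ENNReal Topology
open MeasureTheory ProbabilityTheory Filter Set

open Pool.Agent.Helper363_LBM

/-- Let `Q k` be random quadrangulations of the sphere with `N k` faces, with simple random walks
`e k` whose first dart is uniform given `Q k`. Suppose that, with edges of length `a k → 0`, mass
`b k` at every vertex and the walk run at speed `t k`, they converge in law in the GHPU topology
to a random sphere with a time-changed Brownian motion, and that eventually all degrees of `Q k`
are at most `D k` with probability larger than `199/200`. Then there is a constant `c > 0` with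
`c * N k ≤ D k * t k` for all large `k`. -/
theorem Pool.Agent.Results.MP_7a6434d8_pr.TimeScaleLower.result
    {Ωs : ℕ → Type} [∀ k, MeasurableSpace (Ωs k)] (Ps : ∀ k, Measure (Ωs k))
    [∀ k, IsProbabilityMeasure (Ps k)] (N : ℕ → ℕ) (Q : ∀ k, Ωs k → Quad (N k))
    (e : ∀ k, Ωs k → ℕ → Fin (4 * N k)) (hS : ∀ k, IsSRW (Ps k) (Q k) (e k))
    (hU : ∀ k (q : Quad (N k)) (d : Fin (4 * N k)),
      Ps k {ω | Q k ω = q ∧ e k ω 0 = d} = Ps k {ω | Q k ω = q} * ((4 * N k : ℕ) : ℝ≥0∞)⁻¹)
    (D : ℕ → ℕ)
    (hD : ∀ᶠ k in atTop, 199 / 200 < (Ps k).real {ω | ∀ v, (Q k ω).deg v ≤ D k})
    (a b t : ℕ → ℝ≥0) (ha : Tendsto a atTop (𝓝 0))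
    {Ω : Type} [MeasurableSpace Ω] (P : Measure Ω) [IsProbabilityMeasure P] (Z : Ω → MMC)
    (hZ : @Measurable Ω MMC _ (borel MMC) Z) (hlim : IsBrownianSphere P Z)
    (hconv : ConvergesInLaw Ps
      (fun k ω => walkSpace (Q k ω) (a k) (b k) (t k) (e k ω) ((hS k).path ω)) P Z) :
    ∃ c : ℝ, 0 < c ∧ ∀ᶠ k in atTop, c * N k ≤ D k * t k :=
  Pool.Agent.Run7.h885.TS.time_lower Pool.Agent.Run7.h885.TS.all_TIME
    Pool.Agent.Run7.h885.TS.all_CHN Pool.Agent.Run7.h885.TS.all_NETP
    Pool.Agent.Run7.h885.TS.all_BIGP hS hU hD ha hZ hlim hconv
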